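import Pool.Agent.W543.GE.Stm

/-! Project GE, part DIVA. -/

set_option autoImplicit false

universe u

namespace Pool.Agent.W636.GE

open Pool.Agent.W543.GE MvPolynomial

/-- The shift of the second index. -/
def sh (n N : ℕ) : Fin n × ZMod N ≃ Fin n × ZMod N :=
  Equiv.prodCongr (Equiv.refl _) (Equiv.addRight 1)

theorem sh_apply (n N : ℕ) (p : Fin n × ZMod N) : sh n N p = (p.1, p.2 + 1) := rfl

/-- The exponent of the word `w`. -/
noncomputable def ex {n : ℕ} (N k : ℕ) (w : Fin k → Fin n) : (Fin n × ZMod N) →₀ ℕ :=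
  ∑ j : Fin k, Finsupp.single (w j, ((j : ℕ) : ZMod N)) 1

theorem ex_apply {n : ℕ} (N k : ℕ) (hk : k ≤ N) (w : Fin k → Fin n) (i : Fin n) (j : Fin k) :
    ex N k w (i, ((j : ℕ) : ZMod N)) = if w j = i then 1 else 0 := by
  unfold ex
  rw [Finsupp.finsetSum_apply, Finset.sum_eq_single j]
  · rw [Finsupp.single_apply]
    by_cases h : w j = i
    · rw [if_pos h, if_pos (by rw [h])]
    · rw [if_neg h, if_neg (fun h' => h (Prod.ext_iff.1 h').1)]
  · intro b _ hb
    rw [Finsupp.single_apply, if_neg]
    intro h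
    have h1 := (Prod.ext_iff.1 h).2
    simp only at h1
    rw [ZMod.natCast_eq_natCast_iff'] at h1
    rw [Nat.mod_eq_of_lt (lt_of_lt_of_le b.2 hk), Nat.mod_eq_of_lt (lt_of_lt_of_le j.2 hk)] at h1
    exact hb (Fin.ext h1)
  · intro h
    exact absurd (Finset.mem_univ j) h

theorem ex_inj {n : ℕ} (N k : ℕ) (hk : k ≤ N) : Function.Injective (ex (n := n) N k) := by
  intro w w' h
  funext j
  have h1 := ex_apply N k hk w (w' j) j
  rw [h, ex_apply N k hk w' (w' j) j, if_pos rfl] at h1
  by_contra hne
  rw [if_neg hne] at h1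
  exact one_ne_zero h1

theorem t_DIVA : DIVA_stmt.{u} := by
  intro K _ n N hN
  let R := MvPolynomial (Fin n × ZMod N) K
  let L := FractionRing R
  let ρ : R ≃ₐ[K] R := renameEquiv K (sh n N)
  let σ : L ≃ₐ[K] L := IsFractionRing.fieldEquivOfAlgEquiv K L L ρ
  have hσ : ∀ r : R, σ (algebraMap R L r) = algebraMap R L (ρ r) := fun r =>
    IsFractionRing.fieldEquivOfAlgEquiv_algebraMap K L L ρ r
  have hρ : ∀ p : Fin n × ZMod N, ρ (X p) = X (p.1, p.2 + 1) := fun p => by
    change rename (sh n N) (X p) = _
    rw [rename_X, sh_apply]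
  have hpow : ∀ (j : ℕ) (p : Fin n × ZMod N),
      (σ ^ j) (algebraMap R L (X p)) = algebraMap R L (X (p.1, p.2 + (j : ZMod N))) := by
    intro j
    induction j with
    | zero => intro p; simp
    | succ j ih =>
      intro p
      rw [pow_succ, AlgEquiv.mul_apply, hσ, hρ, ih]
      congr 3
      push_cast
      ring
  refine ⟨L, inferInstance, inferInstance, σ, fun i => algebraMap R L (X (i, 0)), ?_, ?_⟩
  · apply AlgEquiv.ext
    intro z
    have h1 : ((σ ^ N : L ≃ₐ[K] L) : L →+* L).comp (algebraMap R L) = (algebraMap R L) := by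
      apply MvPolynomial.ringHom_ext
      · intro r
        change (σ ^ N) (algebraMap R L (C r)) = _
        have : algebraMap R L (C r) = algebraMap K L r := by
          rw [IsScalarTower.algebraMap_apply K R L]; rfl
        rw [this, AlgEquiv.commutes]
      · intro p
        change (σ ^ N) (algebraMap R L (X p)) = _
        rw [hpow, ZMod.natCast_self, add_zero]
    have h2 : ((σ ^ N : L ≃ₐ[K] L) : L →+* L) = RingHom.id L :=
      IsLocalization.ringHom_ext (nonZeroDivisors R) (by rw [h1]; rfl)
    exact congrArg (fun f : L →+* L => f z) h2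
  · intro k hk
    have h1 : (fun w : Fin k → Fin n => ∏ j : Fin k, (σ ^ (j : ℕ)) (algebraMap R L (X (w j, 0))))
        = fun w => (IsScalarTower.toAlgHom K R L).toLinearMap
          (basisMonomials (Fin n × ZMod N) K (ex N k w)) := by
      funext w
      rw [coe_basisMonomials]
      change _ = algebraMap R L (monomial (ex N k w) 1)
      have h2 : (monomial (ex N k w) (1 : K) : R) = ∏ j : Fin k, X (w j, ((j : ℕ) : ZMod N)) := by
        unfold ex
        rw [monomial_sum_one]
        rfl
      rw [h2, map_prod]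
      refine Finset.prod_congr rfl fun j _ => ?_
      rw [hpow, zero_add]
    rw [h1]
    have h3 : LinearIndependent K fun w : Fin k → Fin n =>
        basisMonomials (Fin n × ZMod N) K (ex N k w) :=
      (basisMonomials (Fin n × ZMod N) K).linearIndependent.comp _ (ex_inj N k hk)
    refine h3.map' _ ?_
    rw [LinearMap.ker_eq_bot]
    exact IsFractionRing.injective R L

end Pool.Agent.W636.GE
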